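import Pool.Agent.R331.RS.Mom

set_option autoImplicit false

namespace Pool.Agent.R331.RS

open MeasureTheory Filter Topology Set ProbabilityTheory
open scoped ENNReal

variable {n : ℕ}

/-- Lebesgue measure on the unit cube -/
noncomputable def lam (n : ℕ) : Measure (Fin n → ℝ) := volume.restrict (Icc 0 1)

instance : IsProbabilityMeasure (lam n) := by
  refine ⟨?_⟩
  unfold lam
  rw [Measure.restrict_apply_univ, Real.volume_Icc_pi]
  simp

/-- dyadic cell of shape `a` -/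
noncomputable def κ (a : Fin n → ℕ) (x : Fin n → ℝ) : Fin n → ℤ := fun i => ⌊x i * 2^(a i)⌋

theorem meas_κ (a : Fin n → ℕ) : Measurable (κ a) := by
  refine measurable_pi_lambda _ fun i => ?_
  exact Int.measurable_floor.comp ((measurable_pi_apply i).mul_const _)

/-- volume of a cell -/
noncomputable def vv (a : Fin n → ℕ) : ℝ := (1/2)^(∑ i, a i)

theorem vv_pos (a : Fin n → ℕ) : 0 < vv a := by unfold vv; positivity

theorem vv_le (a : Fin n → ℕ) : vv a ≤ 1 := by unfold vv; exact pow_le_one₀ (by norm_num) (by norm_num)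

theorem cell_eq (a : Fin n → ℕ) (x : Fin n → ℝ) : {z | κ a z = κ a x} =
    Set.pi univ fun i => Ico ((κ a x i : ℝ) / 2^(a i)) (((κ a x i : ℝ) + 1) / 2^(a i)) := by
  ext z
  simp only [mem_ofPred_eq, Set.mem_pi, mem_univ, true_imp_iff, mem_Ico]
  rw [funext_iff]
  refine forall_congr' fun i => ?_
  have h2 : (0:ℝ) < 2^(a i) := by positivity
  rw [div_le_iff₀ h2, lt_div_iff₀ h2]
  show ⌊z i * 2^(a i)⌋ = κ a x i ↔ _
  rw [Int.floor_eq_iff]

theorem cell_meas (a : Fin n → ℕ) {x : Fin n → ℝ} (hx : x ∈ Set.pi univ fun _ : Fin n => Ico (0:ℝ) 1) :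
    (lam n).real {z | κ a z = κ a x} = vv a := by
  have hsub : {z | κ a z = κ a x} ⊆ Icc (0 : Fin n → ℝ) 1 := by
    rw [cell_eq]
    intro z hz
    simp only [Set.mem_pi, mem_univ, true_imp_iff, mem_Ico] at hz hx
    have h2 : ∀ i, (0:ℝ) < 2^(a i) := fun i => by positivity
    constructor
    · intro i
      have h0 : (0:ℝ) ≤ κ a x i := by
        have : (0:ℤ) ≤ κ a x i := by
          unfold κ
          exact Int.floor_nonneg.mpr (mul_nonneg (hx i).1 (h2 i).le)
        exact_mod_cast this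
      exact le_trans (div_nonneg h0 (h2 i).le) (hz i).1
    · intro i
      have h0 : ((κ a x i : ℝ) + 1) ≤ 2^(a i) := by
        have h3 : (κ a x i : ℝ) < 2^(a i) := by
          refine lt_of_le_of_lt (Int.floor_le _) ?_
          have := (hx i).2
          have h4 := h2 i
          nlinarith
        have h4 : κ a x i < (2:ℤ)^(a i) := by exact_mod_cast h3
        have h5 : κ a x i + 1 ≤ (2:ℤ)^(a i) := h4
        exact_mod_cast h5
      refine le_trans (hz i).2.le ?_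
      rw [div_le_iff₀ (h2 i)]
      show _ ≤ (1:ℝ) * _
      rw [one_mul]
      exact h0
  have hm : MeasurableSet {z | κ a z = κ a x} := measurableSet_eq_fun (meas_κ a) measurable_const
  rw [Measure.real, lam, Measure.restrict_apply hm, inter_eq_left.mpr hsub, cell_eq, Real.volume_pi_Ico]
  have e : ∀ i, ((κ a x i : ℝ) + 1) / 2^(a i) - (κ a x i : ℝ) / 2^(a i) = (1/2)^(a i) := by
    intro i
    rw [div_pow, one_pow, ← sub_div]
    congr 1
    ring
  simp_rw [e]
  rw [ENNReal.toReal_prod]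
  unfold vv
  rw [← Finset.prod_pow_eq_pow_sum]
  apply Finset.prod_congr rfl
  intro i _
  rw [ENNReal.toReal_ofReal (by positivity)]

theorem ae_cube : ∀ᵐ x ∂(lam n), x ∈ Set.pi univ fun _ : Fin n => Ico (0:ℝ) 1 := by
  have h : (Set.pi univ fun _ : Fin n => Ico (0:ℝ) 1) =ᵐ[volume] Icc (0 : Fin n → ℝ) 1 :=
    Measure.univ_pi_Ico_ae_eq_Icc
  unfold lam
  rw [← Measure.restrict_congr_set h]
  exact ae_restrict_mem (MeasurableSet.univ_pi fun _ => measurableSet_Ico)

theorem ae_cell (a : Fin n → ℕ) : ∀ᵐ x ∂(lam n), (lam n).real {z | κ a z = κ a x} = vv a := by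
  filter_upwards [ae_cube] with x hx
  exact cell_meas a hx

/-- blocks of indices -/
def JJ (k : ℕ) : Finset ℕ := Finset.Ico (2^k) (2^(k+1))

theorem card_JJ (k : ℕ) : (JJ k).card = 2^k := by
  unfold JJ
  rw [Nat.card_Ico, pow_succ]
  omega

theorem disj_JJ {k l : ℕ} (h : k ≠ l) : Disjoint (JJ k) (JJ l) := by
  rw [Finset.disjoint_left]
  intro j hj hj'
  unfold JJ at hj hj'
  rw [Finset.mem_Ico] at hj hj'
  rcases Nat.lt_or_gt_of_ne h with h | h
  · have : 2^(k+1) ≤ 2^l := Nat.pow_le_pow_right (by norm_num) h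
    omega
  · have : 2^(l+1) ≤ 2^k := Nat.pow_le_pow_right (by norm_num) h
    omega

noncomputable def qq (k : ℕ) (a : Fin n → ℕ) : ℝ := (1 - vv a)^(2^k)

noncomputable def pp (k : ℕ) (a : Fin n → ℕ) : ℝ := 1 - qq k a

theorem qq_nonneg (k : ℕ) (a : Fin n → ℕ) : 0 ≤ qq k a := by
  unfold qq
  have := vv_le a
  exact pow_nonneg (by linarith) _

theorem pp_le (k : ℕ) (a : Fin n → ℕ) : pp k a ≤ 1 := by
  have := qq_nonneg k a
  unfold pp
  linarith

theorem pp_nonneg (k : ℕ) (a : Fin n → ℕ) : 0 ≤ pp k a := by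
  unfold pp qq
  have h1 := vv_le a
  have h2 := (vv_pos a).le
  have := pow_le_one₀ (n := 2^k) (show 0 ≤ 1 - vv a by linarith) (by linarith)
  linarith

theorem pp_lower {k : ℕ} {a : Fin n → ℕ} (h : 2^k * vv a ≤ 1) : 2^k * vv a / 2 ≤ pp k a := by
  set t : ℝ := 2^k * vv a with ht
  have ht0 : 0 < t := by rw [ht]; exact mul_pos (by positivity) (vv_pos a)
  have h1 : qq k a ≤ Real.exp (-t) := by
    unfold qq
    have h2 : 1 - vv a ≤ Real.exp (-vv a) := Real.one_sub_le_exp_neg _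
    calc (1 - vv a)^(2^k) ≤ (Real.exp (-vv a))^(2^k) := by
          apply pow_le_pow_left₀ _ h2
          have := vv_le a
          linarith
      _ = Real.exp (-t) := by
          rw [← Real.exp_nat_mul]
          congr 1
          rw [ht]
          push_cast
          ring
  have h2 : Real.exp (-t) ≤ 1 - t/2 := by
    have h3 : 1 + t ≤ Real.exp t := by
      have := Real.add_one_le_exp t
      linarith
    rw [Real.exp_neg]
    calc (Real.exp t)⁻¹ ≤ (1 + t)⁻¹ := inv_anti₀ (by linarith) h3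
      _ ≤ 1 - t/2 := by
        rw [inv_eq_one_div, div_le_iff₀ (by linarith)]
        nlinarith
  unfold pp
  linarith

/-- admissible shapes in block `k` -/
noncomputable def SS (n k : ℕ) : Finset (Fin n → ℕ) :=
  (Fintype.piFinset (fun _ : Fin n => Finset.range (3*k+3))).filter
    (fun a => 2^k * vv a ≤ 1 ∧ 1/((k:ℝ)+1)^2 ≤ 2^k * vv a)

theorem mem_SS {k : ℕ} {a : Fin n → ℕ} (h1 : 2^k * vv a ≤ 1) (h2 : 1/((k:ℝ)+1)^2 ≤ 2^k * vv a) : a ∈ SS n k := by
  unfold SS
  rw [Finset.mem_filter, Fintype.mem_piFinset]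
  refine ⟨fun i => ?_, h1, h2⟩
  rw [Finset.mem_range]
  have h3 : (a i) ≤ ∑ i, a i := Finset.single_le_sum (f := a) (fun _ _ => Nat.zero_le _) (Finset.mem_univ i)
  have h4 : ∑ i, a i ≤ 3 * k := by
    have h5 : (2:ℝ)^(∑ i, a i) ≤ 2^k * ((k:ℝ)+1)^2 := by
      unfold vv at h2
      rw [div_le_iff₀ (by positivity), one_div, inv_pow] at h2
      have h6 : (0:ℝ) < 2^(∑ i, a i) := by positivity
      have h7 := mul_le_mul_of_nonneg_right h2 h6.le
      rw [one_mul] at h7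
      calc (2:ℝ)^(∑ i, a i) ≤ 2^k * (2^(∑ i, a i))⁻¹ * ((k:ℝ)+1)^2 * 2^(∑ i, a i) := h7
        _ = 2^k * ((k:ℝ)+1)^2 := by field_simp
    have h8 : ((k:ℝ)+1) ≤ 2^k := by
      have : k + 1 ≤ 2^k := Nat.lt_two_pow_self
      exact_mod_cast this
    have h9 : (2:ℝ)^(∑ i, a i) ≤ 2^(3*k) := by
      calc (2:ℝ)^(∑ i, a i) ≤ 2^k * ((k:ℝ)+1)^2 := h5
        _ ≤ 2^k * (2^k)^2 := by gcongr
        _ = 2^(3*k) := by ring
    exact (pow_le_pow_iff_right₀ (by norm_num)).mp h9
  omega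

theorem card_SS (n k : ℕ) : (SS n k).card ≤ (3*k+3)^n := by
  unfold SS
  refine (Finset.card_filter_le _ _).trans ?_
  rw [Fintype.card_piFinset]
  simp

theorem SS_spec {k : ℕ} {a : Fin n → ℕ} (h : a ∈ SS n k) : 2^k * vv a ≤ 1 ∧ 1/((k:ℝ)+1)^2 ≤ 2^k * vv a := by
  unfold SS at h
  rw [Finset.mem_filter] at h
  exact h.2

theorem pp_lower' {k : ℕ} {a : Fin n → ℕ} (h : a ∈ SS n k) : 1/(2*((k:ℝ)+1)^2) ≤ pp k a := by
  obtain ⟨h1, h2⟩ := SS_spec h
  refine le_trans ?_ (pp_lower h1)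
  rw [show 1/(2*((k:ℝ)+1)^2) = (1/((k:ℝ)+1)^2)/2 by field_simp]
  linarith

theorem pp_pos {k : ℕ} {a : Fin n → ℕ} (h : a ∈ SS n k) : 0 < pp k a :=
  lt_of_lt_of_le (by positivity) (pp_lower' h)

theorem vv_div {k : ℕ} {a : Fin n → ℕ} (h : a ∈ SS n k) : vv a / pp k a ≤ 2 / 2^k := by
  obtain ⟨h1, _⟩ := SS_spec h
  have h2 := pp_lower h1
  rw [div_le_div_iff₀ (pp_pos h) (by positivity)]
  nlinarith

end Pool.Agent.R331.RS
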