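import Pool.Agent.R331.RS.Good

set_option autoImplicit false

namespace Pool.Agent.R331.RS

open MeasureTheory Filter Topology Set ProbabilityTheory
open scoped ENNReal

/-- second moment bound for the set missed by all `E i` -/
theorem miss {Ω : Type*} [MeasurableSpace Ω] (μ : Measure Ω) [IsProbabilityMeasure μ] {ι : Type*}
    (S : Finset ι) (E : ι → Set Ω) (hE : ∀ i, MeasurableSet (E i)) (m : ℝ) :
    m^2 * μ.real {z | ∀ i ∈ S, z ∉ E i} ≤
      ∑ i ∈ S, ∑ j ∈ S, μ.real (E i ∩ E j) - 2 * m * ∑ i ∈ S, μ.real (E i) + m^2 := by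
  classical
  set X : Ω → ℝ := fun z => ∑ i ∈ S, (E i).indicator (fun _ => (1:ℝ)) z with hX
  have hint : ∀ A : Set Ω, MeasurableSet A → Integrable (A.indicator (fun _ => (1:ℝ))) μ := fun A hA =>
    (integrable_const 1).indicator hA
  have hexp : ∀ z, (X z - m)^2 = ∑ i ∈ S, ∑ j ∈ S, (E i ∩ E j).indicator (fun _ => (1:ℝ)) z -
      2 * m * ∑ i ∈ S, (E i).indicator (fun _ => (1:ℝ)) z + m^2 := by
    intro z
    have : (X z)^2 = ∑ i ∈ S, ∑ j ∈ S, (E i ∩ E j).indicator (fun _ => (1:ℝ)) z := by
      rw [sq, hX]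
      simp only
      rw [Finset.sum_mul_sum]
      apply Finset.sum_congr rfl
      intro i _
      apply Finset.sum_congr rfl
      intro j _
      by_cases h1 : z ∈ E i
      · by_cases h2 : z ∈ E j
        · simp [h1, h2]
        · simp [h1, h2]
      · simp [h1]
    rw [← this]
    simp only [hX]
    ring
  have hintX : Integrable (fun z => (X z - m)^2) μ := by
    simp_rw [hexp]
    refine Integrable.add (Integrable.sub ?_ ?_) (integrable_const _)
    · exact integrable_finsetSum _ fun i _ => integrable_finsetSum _ fun j _ => hint _ ((hE i).inter (hE j))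
    · exact (integrable_finsetSum _ fun i _ => hint _ (hE i)).const_mul _
  have hval : ∫ z, (X z - m)^2 ∂μ = ∑ i ∈ S, ∑ j ∈ S, μ.real (E i ∩ E j) - 2 * m * ∑ i ∈ S, μ.real (E i) + m^2 := by
    simp_rw [hexp]
    rw [integral_add, integral_sub, integral_finsetSum, integral_const_mul, integral_finsetSum]
    · have h1 : ∀ i ∈ S, ∫ z, ∑ j ∈ S, (E i ∩ E j).indicator (fun _ => (1:ℝ)) z ∂μ = ∑ j ∈ S, μ.real (E i ∩ E j) := by
        intro i _
        rw [integral_finsetSum]
        · apply Finset.sum_congr rfl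
          intro j _
          rw [integral_indicator ((hE i).inter (hE j))]
          simp
        · exact fun j _ => hint _ ((hE i).inter (hE j))
      rw [Finset.sum_congr rfl h1]
      have h2 : ∀ i ∈ S, ∫ z, (E i).indicator (fun _ => (1:ℝ)) z ∂μ = μ.real (E i) := by
        intro i hi
        rw [integral_indicator (hE i)]
        simp
      rw [Finset.sum_congr rfl h2]
      simp only [integral_const, probReal_univ, smul_eq_mul]
      ring
    · exact fun i _ => hint _ (hE i)
    · exact fun i _ => integrable_finsetSum _ fun j _ => hint _ ((hE i).inter (hE j))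
    · exact integrable_finsetSum _ fun i _ => integrable_finsetSum _ fun j _ => hint _ ((hE i).inter (hE j))
    · exact (integrable_finsetSum _ fun i _ => hint _ (hE i)).const_mul _
    · exact Integrable.sub (integrable_finsetSum _ fun i _ => integrable_finsetSum _ fun j _ => hint _ ((hE i).inter (hE j)))
        ((integrable_finsetSum _ fun i _ => hint _ (hE i)).const_mul _)
    · exact integrable_const _
  set Z : Set Ω := {z | ∀ i ∈ S, z ∉ E i} with hZ
  have hZm : MeasurableSet Z := by
    have : Z = ⋂ i ∈ S, (E i)ᶜ := by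
      ext z
      simp [hZ]
    rw [this]
    exact Finset.measurableSet_biInter _ fun i _ => (hE i).compl
  have h1 : ∫ z, Z.indicator (fun _ => m^2) z ∂μ = m^2 * μ.real Z := by
    rw [integral_indicator hZm, setIntegral_const, smul_eq_mul, mul_comm]
  rw [← h1, ← hval]
  apply integral_mono ((integrable_const _).indicator hZm) hintX
  intro z
  by_cases hz : z ∈ Z
  · rw [Set.indicator_of_mem hz]
    have : X z = 0 := by
      simp only [hX]
      apply Finset.sum_eq_zero
      intro i hi
      rw [Set.indicator_of_notMem (hz i hi)]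
    simp only [this]
    nlinarith
  · rw [Set.indicator_of_notMem hz]
    positivity

variable {n : ℕ}

/-- occupied part -/
def EE (ω : ℕ → Fin n → ℝ) (k : ℕ) (a : Fin n → ℕ) : Set (Fin n → ℝ) := {x | ∃ j ∈ JJ k, κ a (ω j) = κ a x}

theorem EE_eq (ω : ℕ → Fin n → ℝ) (k : ℕ) (a : Fin n → ℕ) :
    EE ω k a = ((fun x => (ω, x)) ⁻¹' (UU (κ a) (JJ k)))ᶜ := by
  ext x
  simp [EE, UU]

theorem meas_EE (ω : ℕ → Fin n → ℝ) (k : ℕ) (a : Fin n → ℕ) : MeasurableSet (EE ω k a) := by
  rw [EE_eq]
  exact (measurable_prodMk_left (meas_UU (meas_κ a) (JJ k))).compl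

theorem hh_EE (ω : ℕ → Fin n → ℝ) (k : ℕ) (a : Fin n → ℕ) (x : Fin n → ℝ) :
    1 - hh (κ a) (JJ k) (ω, x) = (EE ω k a).indicator (fun _ => (1:ℝ)) x := by
  unfold hh
  by_cases h : (ω, x) ∈ UU (κ a) (JJ k)
  · rw [Set.indicator_of_mem h, Set.indicator_of_notMem, sub_self]
    rw [EE_eq]
    simpa using h
  · rw [Set.indicator_of_notMem h, Set.indicator_of_mem, sub_zero]
    rw [EE_eq]
    simpa using h

theorem int_h (ω : ℕ → Fin n → ℝ) (k : ℕ) (a : Fin n → ℕ) :
    Integrable (fun x => hh (κ a) (JJ k) (ω, x)) (lam n) := by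
  refine Integrable.of_bound ((meas_hh (meas_κ a) (JJ k)).comp measurable_prodMk_left).aestronglyMeasurable 1
    (Eventually.of_forall fun x => ?_)
  rw [Real.norm_of_nonneg (hh_nonneg _ _ _)]
  exact hh_le _ _ _

theorem meas_E_eq (ω : ℕ → Fin n → ℝ) (k : ℕ) (a : Fin n → ℕ) :
    (lam n).real (EE ω k a) = pp k a - X0 k a ω := by
  have h1 : (lam n).real (EE ω k a) = ∫ x, (EE ω k a).indicator (fun _ => (1:ℝ)) x ∂(lam n) := by
    rw [integral_indicator (meas_EE ω k a)]
    simp
  rw [h1]
  simp_rw [← hh_EE]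
  unfold X0
  rw [integral_sub (integrable_const _) (int_h ω k a), integral_sub (int_h ω k a) (integrable_const _)]
  simp only [integral_const, probReal_univ, smul_eq_mul, mul_one, one_mul]
  unfold pp
  ring

theorem meas_EE_inter (ω : ℕ → Fin n → ℝ) (k l : ℕ) (a a' : Fin n → ℕ) :
    (lam n).real (EE ω k a ∩ EE ω l a') = pp l a' * (lam n).real (EE ω k a) - X2 k a l a' ω := by
  have h1 : (lam n).real (EE ω k a ∩ EE ω l a') =
      ∫ x, (EE ω k a).indicator (fun _ => (1:ℝ)) x * (EE ω l a').indicator (fun _ => (1:ℝ)) x ∂(lam n) := by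
    have e : ∀ x, (EE ω k a).indicator (fun _ => (1:ℝ)) x * (EE ω l a').indicator (fun _ => (1:ℝ)) x =
        (EE ω k a ∩ EE ω l a').indicator (fun _ => (1:ℝ)) x := by
      intro x
      by_cases h1 : x ∈ EE ω k a
      · by_cases h2 : x ∈ EE ω l a'
        · simp [h1, h2]
        · simp [h1, h2]
      · simp [h1]
    simp_rw [e]
    rw [integral_indicator ((meas_EE ω k a).inter (meas_EE ω l a'))]
    simp
  have h2 : (lam n).real (EE ω k a) = ∫ x, (1 - hh (κ a) (JJ k) (ω, x)) ∂(lam n) := by
    simp_rw [hh_EE]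
    rw [integral_indicator (meas_EE ω k a)]
    simp
  rw [h1, h2]
  simp_rw [← hh_EE]
  unfold X2
  rw [← integral_const_mul, ← integral_sub]
  · apply integral_congr_ae
    refine Eventually.of_forall fun x => ?_
    simp only
    unfold pp
    ring
  · exact ((integrable_const _).sub (int_h ω k a)).const_mul _
  · refine Integrable.of_bound ?_ 1 (Eventually.of_forall fun x => ?_)
    · exact (((meas_hh (meas_κ a) (JJ k)).comp measurable_prodMk_left).const_sub 1).mul
        (((meas_hh (meas_κ a') (JJ l)).comp measurable_prodMk_left).sub_const _) |>.aestronglyMeasurable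
    · have h3 := hh_nonneg (κ a) (JJ k) (ω, x)
      have h4 := hh_le (κ a) (JJ k) (ω, x)
      have h5 := hh_nonneg (κ a') (JJ l) (ω, x)
      have h6 := hh_le (κ a') (JJ l) (ω, x)
      have h7 := qq_nonneg l a'
      have h8 := pp_nonneg l a'
      unfold pp at h8
      rw [norm_mul]
      apply mul_le_one₀
      · rw [Real.norm_eq_abs, abs_le]
        constructor <;> linarith
      · exact norm_nonneg _
      · rw [Real.norm_eq_abs, abs_le]
        constructor <;> linarith

theorem hit_frequently {ω : ℕ → Fin n → ℝ} (hω : Good ω) (a : ℕ → Fin n → ℕ)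
    (hdiv : ¬ Summable ({k | a k ∈ SS n k}.indicator (fun k => pp k (a k)))) :
    ∀ᵐ x ∂(lam n), ∃ᶠ k in atTop, a k ∈ SS n k ∧ x ∈ EE ω k (a k) := by
  classical
  obtain ⟨l₀, hl₀⟩ := hω
  set K : Set ℕ := {k | a k ∈ SS n k} with hK
  set N : ℕ → Set (Fin n → ℝ) := fun k₀ => {x | ∀ k, k₀ ≤ k → k ∈ K → x ∉ EE ω k (a k)} with hN
  have key : ∀ k₀, l₀ ≤ k₀ → (lam n).real (N k₀) ≤ 4 / ((k₀:ℝ)+1) := by
    intro k₀ hk₀
    set δ : ℝ := 1 / ((k₀:ℝ)+1) with hδ
    have hδ0 : 0 < δ := by positivity
    have hδ1 : δ ≤ 1 := by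
      rw [hδ, div_le_one (by positivity)]
      have : (0:ℝ) ≤ k₀ := Nat.cast_nonneg _
      linarith
    have main : ∀ F : Finset ℕ, (∀ k ∈ F, k₀ ≤ k ∧ k ∈ K) → 0 < ∑ k ∈ F, pp k (a k) →
        (lam n).real (N k₀) ≤ 2 / (∑ k ∈ F, pp k (a k)) + 4 * δ := by
      intro F hF hm
      set m := ∑ k ∈ F, pp k (a k) with hm'
      have h1 := miss (lam n) F (fun k => EE ω k (a k)) (fun k => meas_EE ω k (a k)) m
      have h2 : (lam n).real (N k₀) ≤ (lam n).real {z | ∀ i ∈ F, z ∉ EE ω i (a i)} := by
        refine measureReal_mono ?_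
        intro x hx i hi
        exact hx i (hF i hi).1 (hF i hi).2
      have hE : ∀ k ∈ F, |(lam n).real (EE ω k (a k)) - pp k (a k)| ≤ δ * pp k (a k) := by
        intro k hk
        obtain ⟨h3, h4⟩ := hF k hk
        have h5 := (hl₀ k (hk₀.trans h3)).1 (a k) h4
        rw [meas_E_eq]
        have e : pp k (a k) - X0 k (a k) ω - pp k (a k) = -X0 k (a k) ω := by ring
        rw [e, abs_neg]
        refine h5.le.trans ?_
        have h6 : (k₀:ℝ) ≤ k := by exact_mod_cast h3
        rw [hδ, one_div, ← div_eq_inv_mul]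
        apply div_le_div_of_nonneg_left (pp_nonneg _ _) (by positivity) (by linarith)
      have hEE' : ∀ k ∈ F, ∀ l ∈ F, k < l → (lam n).real (EE ω k (a k) ∩ EE ω l (a l)) ≤
          (1 + 2 * δ) * (pp k (a k) * pp l (a l)) := by
        intro k hk l hl hkl
        obtain ⟨h3, h4⟩ := hF k hk
        obtain ⟨h3', h4'⟩ := hF l hl
        have h5 := (hl₀ l (hk₀.trans h3')).2 k hkl (a k) h4 (a l) h4'
        rw [meas_EE_inter]
        have h6 := hE k hk
        rw [abs_le] at h6
        have h7 : |X2 k (a k) l (a l) ω| ≤ δ * (pp k (a k) * pp l (a l)) := by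
          refine h5.le.trans ?_
          have h6 : (k₀:ℝ) ≤ l := by exact_mod_cast h3'
          rw [hδ, one_div, ← div_eq_inv_mul]
          apply div_le_div_of_nonneg_left (mul_nonneg (pp_nonneg _ _) (pp_nonneg _ _)) (by positivity) (by linarith)
        rw [abs_le] at h7
        have h8 := pp_nonneg l (a l)
        have h9 : pp l (a l) * (lam n).real (EE ω k (a k)) ≤ pp l (a l) * ((1 + δ) * pp k (a k)) := by
          apply mul_le_mul_of_nonneg_left _ h8
          linarith [h6.2]
        nlinarith [h7.1]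
      have hEE2 : ∀ k ∈ F, ∀ l ∈ F, k ≠ l → (lam n).real (EE ω k (a k) ∩ EE ω l (a l)) ≤
          (1 + 2 * δ) * (pp k (a k) * pp l (a l)) := by
        intro k hk l hl hkl
        rcases Nat.lt_or_gt_of_ne hkl with h | h
        · exact hEE' k hk l hl h
        · rw [inter_comm, mul_comm (pp k (a k))]
          exact hEE' l hl k hk h
      have h10 : ∑ i ∈ F, ∑ j ∈ F, (lam n).real (EE ω i (a i) ∩ EE ω j (a j)) ≤
          (1 + 2 * δ) * m^2 + (1 + δ) * m := by
        have h11 : ∀ i ∈ F, ∑ j ∈ F, (lam n).real (EE ω i (a i) ∩ EE ω j (a j)) ≤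
            (1 + 2 * δ) * (pp i (a i) * m) + (1 + δ) * pp i (a i) := by
          intro i hi
          rw [← Finset.add_sum_erase F _ hi]
          have h12 : (lam n).real (EE ω i (a i) ∩ EE ω i (a i)) ≤ (1 + δ) * pp i (a i) := by
            rw [inter_self]
            have := hE i hi
            rw [abs_le] at this
            linarith [this.2]
          have h13 : ∑ j ∈ F.erase i, (lam n).real (EE ω i (a i) ∩ EE ω j (a j)) ≤
              (1 + 2 * δ) * (pp i (a i) * m) := by
            calc ∑ j ∈ F.erase i, (lam n).real (EE ω i (a i) ∩ EE ω j (a j))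
                ≤ ∑ j ∈ F.erase i, (1 + 2 * δ) * (pp i (a i) * pp j (a j)) := by
                  apply Finset.sum_le_sum
                  intro j hj
                  rw [Finset.mem_erase] at hj
                  exact hEE2 i hi j hj.2 hj.1.symm
              _ ≤ ∑ j ∈ F, (1 + 2 * δ) * (pp i (a i) * pp j (a j)) := by
                  apply Finset.sum_le_sum_of_subset_of_nonneg (Finset.erase_subset _ _)
                  intro j _ _
                  have := pp_nonneg i (a i)
                  have := pp_nonneg j (a j)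
                  positivity
              _ = _ := by
                  rw [hm', Finset.mul_sum, Finset.mul_sum]
          linarith
        refine (Finset.sum_le_sum h11).trans (le_of_eq ?_)
        rw [Finset.sum_add_distrib, ← Finset.mul_sum, ← Finset.mul_sum, ← Finset.sum_mul, ← hm']
        ring
      have h14 : (1 - δ) * m ≤ ∑ i ∈ F, (lam n).real (EE ω i (a i)) := by
        rw [hm', Finset.mul_sum]
        apply Finset.sum_le_sum
        intro i hi
        have := hE i hi
        rw [abs_le] at this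
        linarith [this.1]
      have h15 : m^2 * (lam n).real (N k₀) ≤ 2 * m + 4 * δ * m^2 := by
        have h16 : m^2 * (lam n).real (N k₀) ≤ m^2 * (lam n).real {z | ∀ i ∈ F, z ∉ EE ω i (a i)} :=
          mul_le_mul_of_nonneg_left h2 (sq_nonneg _)
        have h17 : 2 * m * ((1 - δ) * m) ≤ 2 * m * ∑ i ∈ F, (lam n).real (EE ω i (a i)) :=
          mul_le_mul_of_nonneg_left h14 (by linarith)
        nlinarith
      have h18 : (lam n).real (N k₀) ≤ (2 * m + 4 * δ * m^2) / m^2 := by
        rw [le_div_iff₀ (by positivity)]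
        linarith
      refine h18.trans (le_of_eq ?_)
      field_simp
    -- unbounded sums
    have hunb : ∀ M : ℝ, ∃ F : Finset ℕ, (∀ k ∈ F, k₀ ≤ k ∧ k ∈ K) ∧ M < ∑ k ∈ F, pp k (a k) := by
      intro M
      by_contra hcon
      push Not at hcon
      apply hdiv
      rw [← summable_nat_add_iff k₀]
      refine summable_of_sum_range_le (c := M) (fun k => Set.indicator_nonneg (fun k _ => pp_nonneg _ _) _) fun N' => ?_
      have h1 := hcon (((Finset.range N').map (addRightEmbedding k₀)).filter (fun k => k ∈ K)) (by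
        intro k hk
        rw [Finset.mem_filter, Finset.mem_map] at hk
        obtain ⟨⟨j, _, rfl⟩, h⟩ := hk
        exact ⟨by simp [addRightEmbedding], h⟩)
      refine le_trans (le_of_eq ?_) h1
      rw [Finset.sum_filter, Finset.sum_map]
      apply Finset.sum_congr rfl
      intro j _
      show K.indicator (fun k => pp k (a k)) (j + k₀) = if j + k₀ ∈ K then pp (j + k₀) (a (j + k₀)) else 0
      rw [Set.indicator_apply]
    have : (lam n).real (N k₀) ≤ 4 * δ := by
      apply le_of_forall_pos_le_add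
      intro ε hε
      obtain ⟨F, hF1, hF2⟩ := hunb (2/ε)
      have hm : 0 < ∑ k ∈ F, pp k (a k) := lt_trans (by positivity) hF2
      refine (main F hF1 hm).trans ?_
      have : 2 / (∑ k ∈ F, pp k (a k)) ≤ ε := by
        rw [div_le_iff₀ hm]
        rw [div_lt_iff₀ hε] at hF2
        linarith
      linarith
    refine this.trans (le_of_eq ?_)
    rw [hδ]
    ring
  have hmono : ∀ k m, k ≤ m → N k ⊆ N m := fun k m hkm x hx j hj => hx j (hkm.trans hj)
  have hzero : ∀ k₀, (lam n) (N k₀) = 0 := by
    intro k₀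
    have h1 : (lam n).real (N k₀) ≤ 0 := by
      apply le_of_forall_pos_le_add
      intro ε hε
      obtain ⟨M, hM⟩ := exists_nat_gt (4/ε)
      set m := max (max k₀ l₀) M with hm
      have h2 := key m (le_trans (le_max_right k₀ l₀) (le_max_left _ _))
      have h3 : (lam n).real (N k₀) ≤ (lam n).real (N m) :=
        measureReal_mono (hmono k₀ m (le_trans (le_max_left k₀ l₀) (le_max_left _ _)))
      have h4 : (M:ℝ) ≤ m := by exact_mod_cast le_max_right _ _
      have h5 : 4 / ((m:ℝ)+1) ≤ ε := by
        rw [div_le_iff₀ (by positivity)]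
        rw [div_lt_iff₀ hε] at hM
        nlinarith
      linarith
    have h6 : (lam n).real (N k₀) = 0 := le_antisymm h1 measureReal_nonneg
    exact (measureReal_eq_zero_iff).mp h6
  have hall : (lam n) (⋃ k₀, N k₀) = 0 := measure_iUnion_null hzero
  rw [ae_iff]
  refine measure_mono_null ?_ hall
  intro x hx
  simp only [mem_ofPred_eq, not_frequently, eventually_atTop] at hx
  obtain ⟨k₀, hk₀⟩ := hx
  rw [mem_iUnion]
  exact ⟨k₀, fun k hk hkK hxk => hk₀ k hk ⟨hkK, hxk⟩⟩

end Pool.Agent.R331.RS
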