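import Pool.Agent.R331.RS.BC

set_option autoImplicit false

namespace Pool.Agent.R331.RS

open MeasureTheory Filter Topology Set ProbabilityTheory
open scoped ENNReal

section
variable {S ι : Type*} [MeasurableSpace S] [MeasurableSpace ι] [MeasurableEq ι]
variable (μ : Measure S) [IsProbabilityMeasure μ]

theorem cheb1 {κ : S → ι} (hκ : Measurable κ) {J' J : Finset ℕ} (hd : Disjoint J' J) {v : ℝ}
    (hv0 : 0 ≤ v) (hv1 : v ≤ 1) (hv : ∀ᵐ x ∂μ, μ.real {z | κ z = κ x} = v)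
    (G : (J' → S) × S → ℝ) (hG : Measurable G) (hG0 : ∀ z, 0 ≤ G z) (hG1 : ∀ z, G z ≤ 1) {τ : ℝ} (hτ : 0 < τ) :
    (PP μ).real {ω : ℕ → S | τ ≤ |∫ x, G (fun j => ω j, x) * (hh κ J (ω, x) - (1-v)^J.card) ∂μ|} ≤
      (1 - (1-v)^J.card) * v * (∫ ω : ℕ → S, ∫ x, G (fun j => ω j, x) ∂μ ∂(PP μ)) / τ^2 := by
  set q : ℝ := (1-v)^J.card with hq
  have hq0 : 0 ≤ q := by rw [hq]; exact pow_nonneg (by linarith) _
  have hq1 : q ≤ 1 := by rw [hq]; exact pow_le_one₀ (by linarith) (by linarith)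
  set X : (ℕ → S) → ℝ := fun ω => ∫ x, G (fun j => ω j, x) * (hh κ J (ω, x) - q) ∂μ with hX
  have hgm : Measurable (fun z : (ℕ → S) × S => G (fun j => z.1 j, z.2)) := by
    refine hG.comp (Measurable.prodMk ?_ measurable_snd)
    exact measurable_pi_lambda _ fun j => (measurable_pi_apply (j:ℕ)).comp measurable_fst
  have hfm : Measurable (fun z : (ℕ → S) × S => G (fun j => z.1 j, z.2) * (hh κ J z - q)) :=
    hgm.mul ((meas_hh hκ J).sub_const q)
  have hXm : Measurable X := by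
    have : StronglyMeasurable (fun ω => ∫ x, G (fun j => ω j, x) * (hh κ J (ω, x) - q) ∂μ) :=
      StronglyMeasurable.integral_prod_right'
        (f := fun z : (ℕ → S) × S => G (fun j => z.1 j, z.2) * (hh κ J z - q)) hfm.stronglyMeasurable
    exact this.measurable
  have hb : ∀ ω x, |G (fun j : J' => ω j, x) * (hh κ J (ω, x) - q)| ≤ 1 := by
    intro ω x
    rw [abs_mul, abs_of_nonneg (hG0 _)]
    have h1 : |hh κ J (ω, x) - q| ≤ 1 := by
      rw [abs_le]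
      have := hh_nonneg κ J (ω, x)
      have := hh_le κ J (ω, x)
      constructor <;> linarith
    exact mul_le_one₀ (hG1 _) (abs_nonneg _) h1
  have hXb : ∀ ω, |X ω| ≤ 1 := by
    intro ω
    have := norm_integral_le_of_norm_le_const (μ := μ) (f := fun x => G (fun j : J' => ω j, x) * (hh κ J (ω, x) - q))
      (C := 1) (Eventually.of_forall fun x => hb ω x)
    simpa using this
  have hi : Integrable (fun ω => (X ω)^2) (PP μ) := by
    refine Integrable.of_bound (hXm.pow_const 2).aestronglyMeasurable 1 (Eventually.of_forall fun ω => ?_)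
    rw [Real.norm_of_nonneg (sq_nonneg _), ← sq_abs]
    exact pow_le_one₀ (abs_nonneg _) (hXb ω)
  have h1 := mul_meas_ge_le_integral_of_nonneg (μ := PP μ) (f := fun ω => (X ω)^2)
    (Eventually.of_forall fun ω => sq_nonneg _) hi (τ^2)
  have h2 := second_moment μ hκ hd hv0 hv1 hv G hG hG0 hG1
  have e : {ω : ℕ → S | τ^2 ≤ (X ω)^2} = {ω | τ ≤ |X ω|} := by
    ext ω
    show τ^2 ≤ (X ω)^2 ↔ τ ≤ |X ω|
    rw [← sq_abs (X ω)]
    exact pow_le_pow_iff_left₀ hτ.le (abs_nonneg _) two_ne_zero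
  rw [e] at h1
  rw [le_div_iff₀ (by positivity), mul_comm]
  exact h1.trans h2

theorem mean_hh {κ : S → ι} (hκ : Measurable κ) (J : Finset ℕ) {v : ℝ}
    (hv : ∀ᵐ x ∂μ, μ.real {z | κ z = κ x} = v) :
    ∫ ω : ℕ → S, ∫ x, (1 - hr κ J (fun j => ω j, x)) ∂μ ∂(PP μ) = 1 - (1-v)^J.card := by
  have hi : Integrable (Function.uncurry fun (ω : ℕ → S) x => 1 - hr κ J (fun j => ω j, x)) ((PP μ).prod μ) := by
    refine Integrable.of_bound ?_ 1 (Eventually.of_forall fun z => ?_)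
    · refine Measurable.aestronglyMeasurable ?_
      have : (Function.uncurry fun (ω : ℕ → S) x => 1 - hr κ J (fun j => ω j, x)) = fun z => 1 - hh κ J z := by
        funext z
        obtain ⟨ω, x⟩ := z
        show 1 - hr κ J (fun j => ω j, x) = 1 - hh κ J (ω, x)
        rw [hh_eq_hr]
      rw [this]
      exact (meas_hh hκ J).const_sub 1
    · obtain ⟨ω, x⟩ := z
      show |1 - hr κ J (fun j => ω j, x)| ≤ 1
      rw [← hh_eq_hr, abs_le]
      have := hh_nonneg κ J (ω, x)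
      have := hh_le κ J (ω, x)
      constructor <;> linarith
  rw [integral_integral_swap hi]
  have : ∀ᵐ x ∂μ, ∫ ω : ℕ → S, (1 - hr κ J (fun j => ω j, x)) ∂(PP μ) = 1 - (1-v)^J.card := by
    filter_upwards [hv] with x hx
    simp_rw [← hh_eq_hr]
    rw [integral_sub (integrable_const _), int_hh μ hκ J hx]
    · simp
    · refine Integrable.of_bound ((meas_hh hκ J).comp (measurable_id.prodMk measurable_const)).aestronglyMeasurable 1
        (Eventually.of_forall fun ω => ?_)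
      rw [Real.norm_of_nonneg (hh_nonneg _ _ _)]
      exact hh_le _ _ _
  rw [integral_congr_ae this]
  simp

end

variable {n : ℕ}

noncomputable def X0 (l : ℕ) (a' : Fin n → ℕ) (ω : ℕ → Fin n → ℝ) : ℝ :=
  ∫ x, (hh (κ a') (JJ l) (ω, x) - qq l a') ∂(lam n)

noncomputable def X2 (k : ℕ) (a : Fin n → ℕ) (l : ℕ) (a' : Fin n → ℕ) (ω : ℕ → Fin n → ℝ) : ℝ :=
  ∫ x, (1 - hh (κ a) (JJ k) (ω, x)) * (hh (κ a') (JJ l) (ω, x) - qq l a') ∂(lam n)

theorem cheb_X0 {l : ℕ} {a' : Fin n → ℕ} (h : a' ∈ SS n l) :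
    (PP (lam n)).real {ω | pp l a' / ((l:ℝ)+1) ≤ |X0 l a' ω|} ≤ 2 * ((l:ℝ)+1)^2 / 2^l := by
  have hp := pp_pos h
  have h1 := cheb1 (lam n) (meas_κ a') (J' := ∅) (J := JJ l) (Finset.disjoint_empty_left _) (vv_pos a').le (vv_le a')
    (ae_cell a') (fun _ => 1) measurable_const (fun _ => zero_le_one) (fun _ => le_rfl)
    (τ := pp l a' / ((l:ℝ)+1)) (by positivity)
  rw [card_JJ] at h1
  simp only [one_mul] at h1
  have e : (1 - vv a')^(2^l) = qq l a' := rfl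
  rw [e] at h1
  refine h1.trans ?_
  have e2 : (1 - qq l a') = pp l a' := rfl
  rw [e2]
  simp only [integral_const, probReal_univ, smul_eq_mul, mul_one]
  have h2 := vv_div h
  calc pp l a' * vv a' / (pp l a' / ((l:ℝ)+1))^2 = (vv a' / pp l a') * ((l:ℝ)+1)^2 := by
        field_simp
    _ ≤ 2 / 2^l * ((l:ℝ)+1)^2 := by gcongr
    _ = _ := by ring

theorem cheb_X2 {k l : ℕ} (hkl : k < l) {a a' : Fin n → ℕ} (h : a ∈ SS n k) (h' : a' ∈ SS n l) :
    (PP (lam n)).real {ω | pp k a * pp l a' / ((l:ℝ)+1) ≤ |X2 k a l a' ω|} ≤ 4 * ((l:ℝ)+1)^4 / 2^l := by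
  have hp := pp_pos h
  have hp' := pp_pos h'
  have h1 := cheb1 (lam n) (meas_κ a') (J' := JJ k) (J := JJ l) (disj_JJ hkl.ne) (vv_pos a').le (vv_le a')
    (ae_cell a') (fun z => 1 - hr (κ a) (JJ k) z) ((meas_hr (meas_κ a) (JJ k)).const_sub 1)
    (fun z => by
      have : hr (κ a) (JJ k) z ≤ 1 := Set.indicator_le_self' (fun _ _ => zero_le_one) z
      linarith)
    (fun z => by
      have : 0 ≤ hr (κ a) (JJ k) z := Set.indicator_nonneg (fun _ _ => zero_le_one) z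
      linarith)
    (τ := pp k a * pp l a' / ((l:ℝ)+1)) (by positivity)
  rw [mean_hh (lam n) (meas_κ a) (JJ k) (ae_cell a), card_JJ, card_JJ] at h1
  have e : (1 - vv a')^(2^l) = qq l a' := rfl
  have e' : (1 - vv a)^(2^k) = qq k a := rfl
  rw [e, e'] at h1
  have e3 : {ω : ℕ → Fin n → ℝ | pp k a * pp l a' / ((l:ℝ)+1) ≤ |X2 k a l a' ω|} =
      {ω | pp k a * pp l a' / ((l:ℝ)+1) ≤
        |∫ x, (1 - hr (κ a) (JJ k) (fun j => ω j, x)) * (hh (κ a') (JJ l) (ω, x) - qq l a') ∂(lam n)|} := by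
    ext ω
    show _ ≤ |∫ x, (1 - hh (κ a) (JJ k) (ω, x)) * (hh (κ a') (JJ l) (ω, x) - qq l a') ∂(lam n)| ↔ _
    simp_rw [hh_eq_hr (κ a)]
    rfl
  rw [e3]
  refine h1.trans ?_
  have e2 : (1 - qq l a') = pp l a' := rfl
  have e4 : (1 - qq k a) = pp k a := rfl
  rw [e2, e4]
  have h2 := vv_div h'
  have h3 := pp_lower' h
  have h5 : 1 / pp k a ≤ 2 * ((k:ℝ)+1)^2 := by
    rw [div_le_iff₀ hp]
    rw [div_le_iff₀ (by positivity)] at h3
    linarith
  have hkl' : (k:ℝ) ≤ l := by exact_mod_cast hkl.le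
  calc pp l a' * vv a' * pp k a / (pp k a * pp l a' / ((l:ℝ)+1))^2 =
        (vv a' / pp l a') * (1 / pp k a) * ((l:ℝ)+1)^2 := by
        field_simp
    _ ≤ 2 / 2^l * (2 * ((k:ℝ)+1)^2) * ((l:ℝ)+1)^2 := by
        gcongr
    _ ≤ 2 / 2^l * (2 * ((l:ℝ)+1)^2) * ((l:ℝ)+1)^2 := by gcongr
    _ = _ := by ring

/-- the good event -/
def Good (ω : ℕ → Fin n → ℝ) : Prop := ∃ l₀ : ℕ, ∀ l, l₀ ≤ l →
  (∀ a' ∈ SS n l, |X0 l a' ω| < pp l a' / ((l:ℝ)+1)) ∧
  (∀ k < l, ∀ a ∈ SS n k, ∀ a' ∈ SS n l, |X2 k a l a' ω| < pp k a * pp l a' / ((l:ℝ)+1))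

theorem poly_geom (m : ℕ) : Summable (fun l : ℕ => ((l:ℝ)+1)^m / 2^l) := by
  have h := summable_pow_mul_geometric_of_norm_lt_one (R := ℝ) m (r := 1/2) (by
    rw [Real.norm_of_nonneg (by norm_num)]; norm_num)
  have h2 := (summable_nat_add_iff 1).mpr h
  have h3 := h2.mul_left 2
  refine h3.congr fun l => ?_
  push_cast
  rw [pow_succ, div_pow, one_pow]
  field_simp

theorem ae_good : ∀ᵐ ω ∂(PP (lam n)), Good ω := by
  classical
  set B1 : ℕ → Set (ℕ → Fin n → ℝ) := fun l => ⋃ a' ∈ SS n l, {ω | pp l a' / ((l:ℝ)+1) ≤ |X0 l a' ω|} with hB1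
  set B2 : ℕ → Set (ℕ → Fin n → ℝ) := fun l => ⋃ k ∈ Finset.range l, ⋃ a ∈ SS n k, ⋃ a' ∈ SS n l,
    {ω | pp k a * pp l a' / ((l:ℝ)+1) ≤ |X2 k a l a' ω|} with hB2
  have hs : ∀ (B : ℕ → Set (ℕ → Fin n → ℝ)) (c : ℝ) (m : ℕ), 0 ≤ c →
      (∀ l, (PP (lam n)).real (B l) ≤ c * (((l:ℝ)+1)^m / 2^l)) → ∑' l, (PP (lam n)) (B l) ≠ ⊤ := by
    intro B c m hc hB
    have h1 : ∀ l, (PP (lam n)) (B l) ≤ ENNReal.ofReal (c * (((l:ℝ)+1)^m / 2^l)) := by
      intro l
      have : (PP (lam n)) (B l) = ENNReal.ofReal ((PP (lam n)).real (B l)) := by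
        rw [Measure.real, ENNReal.ofReal_toReal (measure_ne_top _ _)]
      rw [this]
      exact ENNReal.ofReal_le_ofReal (hB l)
    refine ne_top_of_le_ne_top ?_ (ENNReal.tsum_le_tsum h1)
    rw [← ENNReal.ofReal_tsum_of_nonneg (fun l => by positivity) ((poly_geom m).mul_left c)]
    exact ENNReal.ofReal_ne_top
  have hcard : ∀ l : ℕ, ((SS n l).card : ℝ) ≤ 3^n * ((l:ℝ)+1)^n := by
    intro l
    have h1 : ((SS n l).card : ℝ) ≤ (((3*l+3)^n : ℕ) : ℝ) := by exact_mod_cast card_SS n l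
    refine h1.trans (le_of_eq ?_)
    push_cast
    rw [← mul_pow]
    congr 1
    ring
  have hs1 : ∑' l, (PP (lam n)) (B1 l) ≠ ⊤ := by
    apply hs B1 (2 * 3^n) (n+2) (by positivity)
    intro l
    calc (PP (lam n)).real (B1 l) ≤ ∑ a' ∈ SS n l, (PP (lam n)).real {ω | pp l a' / ((l:ℝ)+1) ≤ |X0 l a' ω|} :=
          measureReal_biUnion_finset_le _ _
      _ ≤ ∑ _a' ∈ SS n l, 2 * ((l:ℝ)+1)^2 / 2^l := Finset.sum_le_sum fun a' ha' => cheb_X0 ha'
      _ = (SS n l).card * (2 * ((l:ℝ)+1)^2 / 2^l) := by rw [Finset.sum_const, nsmul_eq_mul]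
      _ ≤ (3^n * ((l:ℝ)+1)^n) * (2 * ((l:ℝ)+1)^2 / 2^l) := by
          gcongr
          exact hcard l
      _ = _ := by rw [pow_add]; ring
  have hs2 : ∑' l, (PP (lam n)) (B2 l) ≠ ⊤ := by
    apply hs B2 (4 * 3^n * 3^n) (1 + n + n + 4) (by positivity)
    intro l
    calc (PP (lam n)).real (B2 l) ≤ ∑ k ∈ Finset.range l, (PP (lam n)).real (⋃ a ∈ SS n k, ⋃ a' ∈ SS n l,
            {ω | pp k a * pp l a' / ((l:ℝ)+1) ≤ |X2 k a l a' ω|}) := measureReal_biUnion_finset_le _ _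
      _ ≤ ∑ k ∈ Finset.range l, (3^n * ((l:ℝ)+1)^n) * ((3^n * ((l:ℝ)+1)^n) * (4 * ((l:ℝ)+1)^4 / 2^l)) := by
          apply Finset.sum_le_sum
          intro k hk
          rw [Finset.mem_range] at hk
          calc (PP (lam n)).real (⋃ a ∈ SS n k, ⋃ a' ∈ SS n l,
                {ω | pp k a * pp l a' / ((l:ℝ)+1) ≤ |X2 k a l a' ω|})
              ≤ ∑ a ∈ SS n k, (PP (lam n)).real (⋃ a' ∈ SS n l,
                {ω | pp k a * pp l a' / ((l:ℝ)+1) ≤ |X2 k a l a' ω|}) := measureReal_biUnion_finset_le _ _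
            _ ≤ ∑ _a ∈ SS n k, ((3^n * ((l:ℝ)+1)^n) * (4 * ((l:ℝ)+1)^4 / 2^l)) := by
                apply Finset.sum_le_sum
                intro a ha
                calc (PP (lam n)).real (⋃ a' ∈ SS n l, {ω | pp k a * pp l a' / ((l:ℝ)+1) ≤ |X2 k a l a' ω|})
                    ≤ ∑ a' ∈ SS n l, (PP (lam n)).real {ω | pp k a * pp l a' / ((l:ℝ)+1) ≤ |X2 k a l a' ω|} :=
                      measureReal_biUnion_finset_le _ _
                  _ ≤ ∑ _a' ∈ SS n l, 4 * ((l:ℝ)+1)^4 / 2^l := Finset.sum_le_sum fun a' ha' => cheb_X2 hk ha ha'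
                  _ = (SS n l).card * (4 * ((l:ℝ)+1)^4 / 2^l) := by rw [Finset.sum_const, nsmul_eq_mul]
                  _ ≤ _ := by
                    gcongr
                    exact hcard l
            _ = (SS n k).card * ((3^n * ((l:ℝ)+1)^n) * (4 * ((l:ℝ)+1)^4 / 2^l)) := by
                rw [Finset.sum_const, nsmul_eq_mul]
            _ ≤ _ := by
                gcongr
                refine (hcard k).trans ?_
                gcongr
      _ = l * ((3^n * ((l:ℝ)+1)^n) * ((3^n * ((l:ℝ)+1)^n) * (4 * ((l:ℝ)+1)^4 / 2^l))) := by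
          rw [Finset.sum_const, Finset.card_range, nsmul_eq_mul]
      _ ≤ ((l:ℝ)+1) * ((3^n * ((l:ℝ)+1)^n) * ((3^n * ((l:ℝ)+1)^n) * (4 * ((l:ℝ)+1)^4 / 2^l))) := by
          gcongr
          linarith
      _ = _ := by
          rw [pow_add, pow_add, pow_add, pow_one]
          ring
  filter_upwards [ae_eventually_notMem hs1, ae_eventually_notMem hs2] with ω h1 h2
  obtain ⟨l₀, h⟩ := eventually_atTop.mp (h1.and h2)
  refine ⟨l₀, fun l hl => ⟨fun a' ha' => ?_, fun k hk a ha a' ha' => ?_⟩⟩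
  · by_contra hcon
    push Not at hcon
    apply (h l hl).1
    simp only [hB1, mem_iUnion]
    exact ⟨a', ha', hcon⟩
  · by_contra hcon
    push Not at hcon
    apply (h l hl).2
    simp only [hB2, mem_iUnion]
    exact ⟨k, Finset.mem_range.mpr hk, a, ha, a', ha', hcon⟩

end Pool.Agent.R331.RS
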