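import Pool.Agent.R331.RS.Occ

set_option autoImplicit false

namespace Pool.Agent.R331.RS

open MeasureTheory Filter Topology Set ProbabilityTheory
open scoped ENNReal

variable {S ι : Type*} [MeasurableSpace S] [MeasurableSpace ι] [MeasurableEq ι]
variable (μ : Measure S) [IsProbabilityMeasure μ]

theorem int_pair {κ : S → ι} (hκ : Measurable κ) (J : Finset ℕ) {v : ℝ} (hv0 : 0 ≤ v) (hv1 : v ≤ 1) {x y : S}
    (hx : μ.real {z | κ z = κ x} = v) (hy : μ.real {z | κ z = κ y} = v) :
    ∫ ω, (hh κ J (ω, x) - (1-v)^J.card) * (hh κ J (ω, y) - (1-v)^J.card) ∂(PP μ) ≤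
      ({z : S × S | κ z.1 = κ z.2}).indicator (fun _ => 1 - (1-v)^J.card) (x, y) := by
  set q : ℝ := (1-v)^J.card with hq
  have hq0 : 0 ≤ q := by rw [hq]; exact pow_nonneg (by linarith) _
  have hq1 : q ≤ 1 := by rw [hq]; exact pow_le_one₀ (by linarith) (by linarith)
  have hmeas : ∀ x, Measurable (fun ω : ℕ → S => hh κ J (ω, x)) := fun x =>
    (meas_hh hκ J).comp (measurable_id.prodMk measurable_const)
  have hbd : ∀ x, ∀ ω : ℕ → S, ‖hh κ J (ω, x)‖ ≤ 1 := fun x ω => by
    rw [Real.norm_of_nonneg (hh_nonneg _ _ _)]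
    exact hh_le _ _ _
  have hi : ∀ x, Integrable (fun ω : ℕ → S => hh κ J (ω, x)) (PP μ) := fun x =>
    Integrable.of_bound (hmeas x).aestronglyMeasurable 1 (Eventually.of_forall (hbd x))
  have hii : Integrable (fun ω : ℕ → S => hh κ J (ω, x) * hh κ J (ω, y)) (PP μ) := by
    refine Integrable.of_bound ((hmeas x).mul (hmeas y)).aestronglyMeasurable 1 (Eventually.of_forall fun ω => ?_)
    rw [norm_mul]
    exact mul_le_one₀ (hbd x ω) (norm_nonneg _) (hbd y ω)
  have e1 : ∀ ω : ℕ → S, (hh κ J (ω, x) - q) * (hh κ J (ω, y) - q) =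
      hh κ J (ω, x) * hh κ J (ω, y) - q * hh κ J (ω, x) - q * hh κ J (ω, y) + q^2 := by
    intro ω
    ring
  have e2 : ∫ ω, (hh κ J (ω, x) - q) * (hh κ J (ω, y) - q) ∂(PP μ) =
      ∫ ω, hh κ J (ω, x) * hh κ J (ω, y) ∂(PP μ) - q^2 := by
    simp_rw [e1]
    rw [integral_add, integral_sub, integral_sub, integral_const_mul, integral_const_mul, int_hh μ hκ J hx,
      int_hh μ hκ J hy, integral_const, probReal_univ, ← hq]
    · simp only [smul_eq_mul, one_mul]
      ring
    · exact hii
    · exact (hi x).const_mul q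
    · exact hii.sub ((hi x).const_mul q)
    · exact (hi y).const_mul q
    · exact (hii.sub ((hi x).const_mul q)).sub ((hi y).const_mul q)
    · exact integrable_const _
  rw [e2]
  by_cases h : κ x = κ y
  · rw [Set.indicator_of_mem (show (x, y) ∈ {z : S × S | κ z.1 = κ z.2} from h)]
    have e3 : ∀ ω : ℕ → S, hh κ J (ω, x) * hh κ J (ω, y) = hh κ J (ω, x) := by
      intro ω
      have : hh κ J (ω, y) = hh κ J (ω, x) := by
        unfold hh UU
        by_cases h' : ∀ j ∈ J, κ (ω j) ≠ κ x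
        · rw [Set.indicator_of_mem, Set.indicator_of_mem]
          · exact h'
          · intro j hj
            show κ (ω j) ≠ κ y
            rw [← h]
            exact h' j hj
        · rw [Set.indicator_of_notMem, Set.indicator_of_notMem]
          · exact h'
          · intro h2
            apply h'
            intro j hj
            rw [h]
            exact h2 j hj
      rw [this]
      unfold hh
      by_cases h' : (ω, x) ∈ UU κ J
      · rw [Set.indicator_of_mem h', mul_one]
      · rw [Set.indicator_of_notMem h', mul_zero]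
    simp_rw [e3]
    rw [int_hh μ hκ J hx, ← hq]
    nlinarith [sq_nonneg (1 - q)]
  · rw [Set.indicator_of_notMem (show (x, y) ∉ {z : S × S | κ z.1 = κ z.2} from h)]
    have := int_hh2 μ hκ J hx hy h
    rw [← hq] at this
    linarith

theorem second_moment {κ : S → ι} (hκ : Measurable κ) {J' J : Finset ℕ} (hd : Disjoint J' J) {v : ℝ}
    (hv0 : 0 ≤ v) (hv1 : v ≤ 1) (hv : ∀ᵐ x ∂μ, μ.real {z | κ z = κ x} = v)
    (G : (J' → S) × S → ℝ) (hG : Measurable G) (hG0 : ∀ z, 0 ≤ G z) (hG1 : ∀ z, G z ≤ 1) :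
    ∫ ω : ℕ → S, (∫ x, G (fun j => ω j, x) * (hh κ J (ω, x) - (1-v)^J.card) ∂μ)^2 ∂(PP μ) ≤
      (1 - (1-v)^J.card) * v * ∫ ω : ℕ → S, ∫ x, G (fun j => ω j, x) ∂μ ∂(PP μ) := by
  set q : ℝ := (1-v)^J.card with hq
  have hq0 : 0 ≤ q := by rw [hq]; exact pow_nonneg (by linarith) _
  have hq1 : q ≤ 1 := by rw [hq]; exact pow_le_one₀ (by linarith) (by linarith)
  set g : (ℕ → S) → S → ℝ := fun ω x => G (fun j => ω j, x) with hg
  set f : (ℕ → S) → S → ℝ := fun ω x => g ω x * (hh κ J (ω, x) - q) with hf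
  have hgm : Measurable (fun z : (ℕ → S) × S => g z.1 z.2) := by
    refine hG.comp (Measurable.prodMk ?_ measurable_snd)
    exact measurable_pi_lambda _ fun j => (measurable_pi_apply (j:ℕ)).comp measurable_fst
  have hfm : Measurable (fun z : (ℕ → S) × S => f z.1 z.2) :=
    hgm.mul ((meas_hh hκ J).sub_const q)
  have hfb : ∀ ω x, |f ω x| ≤ 1 := by
    intro ω x
    rw [hf]
    simp only
    rw [abs_mul, abs_of_nonneg (hG0 _)]
    have h1 : |hh κ J (ω, x) - q| ≤ 1 := by
      rw [abs_le]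
      have := hh_nonneg κ J (ω, x)
      have := hh_le κ J (ω, x)
      constructor <;> linarith
    exact mul_le_one₀ (hG1 _) (abs_nonneg _) h1
  -- rewrite the square
  have s1 : ∀ ω, (∫ x, f ω x ∂μ)^2 = ∫ z : S × S, f ω z.1 * f ω z.2 ∂(μ.prod μ) := by
    intro ω
    rw [integral_prod_mul (fun x => f ω x) (fun x => f ω x), sq]
  have hFm : Measurable (fun z : (ℕ → S) × (S × S) => f z.1 z.2.1 * f z.1 z.2.2) := by
    refine Measurable.mul ?_ ?_
    · exact hfm.comp (measurable_fst.prodMk (measurable_fst.comp measurable_snd))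
    · exact hfm.comp (measurable_fst.prodMk (measurable_snd.comp measurable_snd))
  have hFi : Integrable (fun z : (ℕ → S) × (S × S) => f z.1 z.2.1 * f z.1 z.2.2) ((PP μ).prod (μ.prod μ)) := by
    refine Integrable.of_bound hFm.aestronglyMeasurable 1 (Eventually.of_forall fun z => ?_)
    rw [norm_mul]
    exact mul_le_one₀ (hfb _ _) (norm_nonneg _) (hfb _ _)
  have s2 : ∫ ω, (∫ x, f ω x ∂μ)^2 ∂(PP μ) = ∫ z : S × S, ∫ ω, f ω z.1 * f ω z.2 ∂(PP μ) ∂(μ.prod μ) := by
    simp_rw [s1]
    exact integral_integral_swap (f := fun ω (z : S × S) => f ω z.1 * f ω z.2) hFi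
  have hindep : IndepFun (fun (ω : ℕ → S) (j : J') => ω j) (fun (ω : ℕ → S) (j : J) => ω j) (PP μ) := by
    have h1 : iIndepFun (fun (i : ℕ) (ω : ℕ → S) => ω i) (PP μ) :=
      iIndepFun_infinitePi (P := fun _ : ℕ => μ) (X := fun _ x => x) (fun _ => measurable_id)
    exact h1.indepFun_finset J' J hd (fun i => measurable_pi_apply i)
  have hmr : ∀ T : Finset ℕ, Measurable (fun (ω : ℕ → S) (j : T) => ω j) := fun T =>
    measurable_pi_lambda _ fun j => measurable_pi_apply (j:ℕ)
  have s3 : ∀ z : S × S, ∫ ω, f ω z.1 * f ω z.2 ∂(PP μ) =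
      (∫ ω, g ω z.1 * g ω z.2 ∂(PP μ)) * ∫ ω, (hh κ J (ω, z.1) - q) * (hh κ J (ω, z.2) - q) ∂(PP μ) := by
    intro z
    have h1 := hindep.integral_fun_comp_mul_comp (𝕜 := ℝ)
      (f := fun a => G (a, z.1) * G (a, z.2)) (g := fun b => (hr κ J (b, z.1) - q) * (hr κ J (b, z.2) - q))
      (hmr J').aemeasurable (hmr J).aemeasurable
      (by
        refine Measurable.aestronglyMeasurable ?_
        exact (hG.comp (measurable_id.prodMk measurable_const)).mul (hG.comp (measurable_id.prodMk measurable_const)))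
      (by
        refine Measurable.aestronglyMeasurable ?_
        exact (((meas_hr hκ J).comp (measurable_id.prodMk measurable_const)).sub_const q).mul
          (((meas_hr hκ J).comp (measurable_id.prodMk measurable_const)).sub_const q))
    have e : ∀ ω : ℕ → S, f ω z.1 * f ω z.2 = (G (fun j => ω j, z.1) * G (fun j => ω j, z.2)) *
        ((hr κ J (fun j => ω j, z.1) - q) * (hr κ J (fun j => ω j, z.2) - q)) := by
      intro ω
      simp only [hf, hg, hh_eq_hr]
      ring
    simp_rw [e]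
    rw [h1]
    congr 1
    apply integral_congr_ae
    refine Eventually.of_forall fun ω => ?_
    simp only [hh_eq_hr]
  -- ae bound
  set A : S → ℝ := fun x => ∫ ω, g ω x ∂(PP μ) with hA
  have hgi : ∀ x, Integrable (fun ω => g ω x) (PP μ) := by
    intro x
    refine Integrable.of_bound (hgm.comp (measurable_id.prodMk measurable_const)).aestronglyMeasurable 1
      (Eventually.of_forall fun ω => ?_)
    rw [Real.norm_of_nonneg (hG0 _)]
    exact hG1 _
  have hggi : ∀ x y, Integrable (fun ω => g ω x * g ω y) (PP μ) := by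
    intro x y
    refine Integrable.of_bound ((hgm.comp (measurable_id.prodMk measurable_const)).mul
      (hgm.comp (measurable_id.prodMk measurable_const))).aestronglyMeasurable 1
      (Eventually.of_forall fun ω => ?_)
    rw [norm_mul, Real.norm_of_nonneg (hG0 _), Real.norm_of_nonneg (hG0 _)]
    exact mul_le_one₀ (hG1 _) (hG0 _) (hG1 _)
  have hA0 : ∀ x, 0 ≤ A x := fun x => integral_nonneg fun ω => hG0 _
  have hA1 : ∀ x, A x ≤ 1 := by
    intro x
    calc A x ≤ ∫ _ω, (1:ℝ) ∂(PP μ) := integral_mono (hgi x) (integrable_const _) fun ω => hG1 _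
      _ = 1 := by simp
  set D : Set (S × S) := {z : S × S | κ z.1 = κ z.2} with hD
  have hDm : MeasurableSet D := measurableSet_eq_fun (hκ.comp measurable_fst) (hκ.comp measurable_snd)
  have hae : ∀ᵐ z : S × S ∂(μ.prod μ), ∫ ω, f ω z.1 * f ω z.2 ∂(PP μ) ≤ A z.1 * D.indicator (fun _ => 1 - q) z := by
    have ha1 : ∀ᵐ z : S × S ∂(μ.prod μ), μ.real {y | κ y = κ z.1} = v :=
      Measure.quasiMeasurePreserving_fst.ae hv
    have ha2 : ∀ᵐ z : S × S ∂(μ.prod μ), μ.real {y | κ y = κ z.2} = v :=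
      Measure.quasiMeasurePreserving_snd.ae hv
    filter_upwards [ha1, ha2] with z h1 h2
    rw [s3]
    have h3 := int_pair μ hκ J hv0 hv1 h1 h2
    rw [← hq] at h3
    have h4 : 0 ≤ ∫ ω, g ω z.1 * g ω z.2 ∂(PP μ) := integral_nonneg fun ω => mul_nonneg (hG0 _) (hG0 _)
    have h5 : ∫ ω, g ω z.1 * g ω z.2 ∂(PP μ) ≤ A z.1 := by
      apply integral_mono (hggi _ _) (hgi _)
      intro ω
      exact mul_le_of_le_one_right (hG0 _) (hG1 _)
    have h6 : 0 ≤ D.indicator (fun _ => 1 - q) z := Set.indicator_nonneg (fun _ _ => by linarith) z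
    calc (∫ ω, g ω z.1 * g ω z.2 ∂(PP μ)) * ∫ ω, (hh κ J (ω, z.1) - q) * (hh κ J (ω, z.2) - q) ∂(PP μ)
        ≤ (∫ ω, g ω z.1 * g ω z.2 ∂(PP μ)) * D.indicator (fun _ => 1 - q) z :=
          mul_le_mul_of_nonneg_left h3 h4
      _ ≤ _ := mul_le_mul_of_nonneg_right h5 h6
  have hAm : Measurable A := by
    have : StronglyMeasurable (fun x => ∫ ω, g ω x ∂(PP μ)) := by
      apply StronglyMeasurable.integral_prod_right'
        (f := fun z : S × (ℕ → S) => g z.2 z.1)
      exact (hgm.comp measurable_swap).stronglyMeasurable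
    exact this.measurable
  have hRi : Integrable (fun z : S × S => A z.1 * D.indicator (fun _ => 1 - q) z) (μ.prod μ) := by
    refine Integrable.of_bound ((hAm.comp measurable_fst).mul (measurable_const.indicator hDm)).aestronglyMeasurable 1
      (Eventually.of_forall fun z => ?_)
    have h6 : 0 ≤ D.indicator (fun _ => 1 - q) z := Set.indicator_nonneg (fun _ _ => by linarith) z
    have h7 : D.indicator (fun _ => 1 - q) z ≤ 1 :=
      (Set.indicator_le_self' (fun _ _ => by linarith) z).trans (by linarith)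
    rw [norm_mul, Real.norm_of_nonneg (hA0 _), Real.norm_of_nonneg h6]
    exact mul_le_one₀ (hA1 _) h6 h7
  have hLi : Integrable (fun z : S × S => ∫ ω, f ω z.1 * f ω z.2 ∂(PP μ)) (μ.prod μ) :=
    hFi.integral_prod_right
  have s4 : ∫ z : S × S, A z.1 * D.indicator (fun _ => 1 - q) z ∂(μ.prod μ) = (1 - q) * v * ∫ x, A x ∂μ := by
    rw [integral_prod _ hRi, ← integral_const_mul]
    apply integral_congr_ae
    filter_upwards [hv] with x hx
    rw [integral_const_mul]
    have e : ∀ y, D.indicator (fun _ => 1 - q) (x, y) = ({y | κ y = κ x}).indicator (fun _ => 1 - q) y := by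
      intro y
      by_cases h : κ x = κ y
      · rw [Set.indicator_of_mem (show (x, y) ∈ D from h), Set.indicator_of_mem (show y ∈ {y | κ y = κ x} from h.symm)]
      · rw [Set.indicator_of_notMem (show (x, y) ∉ D from h),
          Set.indicator_of_notMem (show y ∉ {y | κ y = κ x} from fun h' => h h'.symm)]
    simp_rw [e]
    rw [integral_indicator (measurableSet_eq_fun hκ measurable_const), setIntegral_const, hx, smul_eq_mul]
    ring
  have s5 : ∫ x, A x ∂μ = ∫ ω, ∫ x, g ω x ∂μ ∂(PP μ) := by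
    have hi : Integrable (Function.uncurry fun x ω => g ω x) (μ.prod (PP μ)) := by
      refine Integrable.of_bound (hgm.comp measurable_swap).aestronglyMeasurable 1 (Eventually.of_forall fun z => ?_)
      show ‖g z.2 z.1‖ ≤ 1
      rw [Real.norm_of_nonneg (hG0 _)]
      exact hG1 _
    exact integral_integral_swap hi
  calc ∫ ω, (∫ x, f ω x ∂μ)^2 ∂(PP μ) = ∫ z : S × S, ∫ ω, f ω z.1 * f ω z.2 ∂(PP μ) ∂(μ.prod μ) := s2
    _ ≤ ∫ z : S × S, A z.1 * D.indicator (fun _ => 1 - q) z ∂(μ.prod μ) := integral_mono_ae hLi hRi hae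
    _ = (1 - q) * v * ∫ x, A x ∂μ := s4
    _ = _ := by rw [s5]

end Pool.Agent.R331.RS
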