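import Mathlib

set_option autoImplicit false

/-!
Second moment bounds for the part of a probability space occupied by the cells of random points.
-/

namespace Pool.Agent.R331.RS

open MeasureTheory Filter Topology Set ProbabilityTheory
open scoped ENNReal

variable {S ι : Type*} [MeasurableSpace S] [MeasurableSpace ι] [MeasurableEq ι]

/-- pairs `(ω, x)` for which the cell of `x` contains no point `ω j`, `j ∈ J` -/
def UU (κ : S → ι) (J : Finset ℕ) : Set ((ℕ → S) × S) := {z | ∀ j ∈ J, κ (z.1 j) ≠ κ z.2}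

theorem meas_UU {κ : S → ι} (hκ : Measurable κ) (J : Finset ℕ) : MeasurableSet (UU κ J) := by
  have : UU κ J = ⋂ j ∈ J, {z | κ (z.1 j) = κ z.2}ᶜ := by
    ext z
    simp [UU]
  rw [this]
  refine Finset.measurableSet_biInter _ fun j _ => MeasurableSet.compl ?_
  refine measurableSet_eq_fun ?_ (hκ.comp measurable_snd)
  exact hκ.comp ((measurable_pi_apply j).comp measurable_fst)

/-- indicator of an unoccupied cell -/
noncomputable def hh (κ : S → ι) (J : Finset ℕ) (z : (ℕ → S) × S) : ℝ := (UU κ J).indicator (fun _ => 1) z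

theorem meas_hh {κ : S → ι} (hκ : Measurable κ) (J : Finset ℕ) : Measurable (hh κ J) :=
  measurable_const.indicator (meas_UU hκ J)

theorem hh_nonneg (κ : S → ι) (J : Finset ℕ) (z : (ℕ → S) × S) : 0 ≤ hh κ J z := by
  unfold hh
  exact Set.indicator_nonneg (fun _ _ => zero_le_one) z

theorem hh_le (κ : S → ι) (J : Finset ℕ) (z : (ℕ → S) × S) : hh κ J z ≤ 1 := by
  unfold hh
  exact Set.indicator_le_self' (fun _ _ => zero_le_one) z

/-- the same function with the finitely many coordinates separated -/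
noncomputable def hr (κ : S → ι) (J : Finset ℕ) (z : (J → S) × S) : ℝ :=
  ({z : (J → S) × S | ∀ j : J, κ (z.1 j) ≠ κ z.2}).indicator (fun _ => 1) z

theorem meas_hr {κ : S → ι} (hκ : Measurable κ) (J : Finset ℕ) : Measurable (hr κ J) := by
  refine measurable_const.indicator ?_
  have : {z : (J → S) × S | ∀ j : J, κ (z.1 j) ≠ κ z.2} = ⋂ j : J, {z | κ (z.1 j) = κ z.2}ᶜ := by
    ext z
    simp
  rw [this]
  refine MeasurableSet.iInter fun j => MeasurableSet.compl ?_
  refine measurableSet_eq_fun ?_ (hκ.comp measurable_snd)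
  exact hκ.comp ((measurable_pi_apply j).comp measurable_fst)

theorem hh_eq_hr (κ : S → ι) (J : Finset ℕ) (ω : ℕ → S) (x : S) :
    hh κ J (ω, x) = hr κ J (fun j => ω j, x) := by
  unfold hh hr UU
  by_cases h : ∀ j ∈ J, κ (ω j) ≠ κ x
  · rw [Set.indicator_of_mem (show (ω, x) ∈ {z : (ℕ → S) × S | ∀ j ∈ J, κ (z.1 j) ≠ κ z.2} from h),
      Set.indicator_of_mem]
    exact fun j => h j j.2
  · rw [Set.indicator_of_notMem (show (ω, x) ∉ {z : (ℕ → S) × S | ∀ j ∈ J, κ (z.1 j) ≠ κ z.2} from h),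
      Set.indicator_of_notMem]
    intro h2
    exact h fun j hj => h2 ⟨j, hj⟩

variable (μ : Measure S) [IsProbabilityMeasure μ]

/-- product measure -/
noncomputable abbrev PP : Measure (ℕ → S) := Measure.infinitePi (fun _ : ℕ => μ)

theorem prob_pi (J : Finset ℕ) {C : Set S} (hC : MeasurableSet C) :
    (PP μ).real {ω | ∀ j ∈ J, ω j ∈ C} = (μ.real C)^J.card := by
  have h : {ω : ℕ → S | ∀ j ∈ J, ω j ∈ C} = Set.pi (J : Set ℕ) (fun _ => C) := by
    ext ω
    simp [Set.mem_pi]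
  rw [h, Measure.real, PP, Measure.infinitePi_pi (fun _ : ℕ => μ) (fun _ _ => hC), Finset.prod_const,
    ENNReal.toReal_pow]
  rfl

theorem int_hh {κ : S → ι} (hκ : Measurable κ) (J : Finset ℕ) {v : ℝ} {x : S}
    (hx : μ.real {z | κ z = κ x} = v) : ∫ ω, hh κ J (ω, x) ∂(PP μ) = (1-v)^J.card := by
  have hC : MeasurableSet {z | κ z ≠ κ x} := (measurableSet_eq_fun hκ measurable_const).compl
  have h1 : (fun ω => hh κ J (ω, x)) = ({ω | ∀ j ∈ J, ω j ∈ {z | κ z ≠ κ x}}).indicator (fun _ => (1:ℝ)) := by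
    funext ω
    unfold hh UU
    by_cases h : ∀ j ∈ J, κ (ω j) ≠ κ x
    · rw [Set.indicator_of_mem (show (ω, x) ∈ {z : (ℕ → S) × S | ∀ j ∈ J, κ (z.1 j) ≠ κ z.2} from h),
        Set.indicator_of_mem]
      exact h
    · rw [Set.indicator_of_notMem (show (ω, x) ∉ {z : (ℕ → S) × S | ∀ j ∈ J, κ (z.1 j) ≠ κ z.2} from h),
        Set.indicator_of_notMem]
      exact h
  have hm : MeasurableSet {ω : ℕ → S | ∀ j ∈ J, ω j ∈ {z | κ z ≠ κ x}} := by
    have : {ω : ℕ → S | ∀ j ∈ J, ω j ∈ {z | κ z ≠ κ x}} = ⋂ j ∈ J, (fun ω => ω j) ⁻¹' {z | κ z ≠ κ x} := by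
      ext ω
      simp
    rw [this]
    exact Finset.measurableSet_biInter _ fun j _ => (measurable_pi_apply j) hC
  rw [h1, integral_indicator hm, setIntegral_const, smul_eq_mul, mul_one, prob_pi μ J hC]
  congr 1
  have : {z | κ z ≠ κ x} = {z | κ z = κ x}ᶜ := rfl
  rw [this, measureReal_compl (measurableSet_eq_fun hκ measurable_const), hx]
  simp

theorem int_hh2 {κ : S → ι} (hκ : Measurable κ) (J : Finset ℕ) {v : ℝ} {x y : S}
    (hx : μ.real {z | κ z = κ x} = v) (hy : μ.real {z | κ z = κ y} = v) (hxy : κ x ≠ κ y) :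
    ∫ ω, hh κ J (ω, x) * hh κ J (ω, y) ∂(PP μ) ≤ ((1-v)^J.card)^2 := by
  set C : Set S := {z | κ z ≠ κ x ∧ κ z ≠ κ y} with hC'
  have hCx := measurableSet_eq_fun hκ (measurable_const (a := κ x))
  have hCy := measurableSet_eq_fun hκ (measurable_const (a := κ y))
  have hCe : C = ({z | κ z = κ x} ∪ {z | κ z = κ y})ᶜ := by
    ext z
    simp [hC', not_or]
  have hC : MeasurableSet C := by
    rw [hCe]
    exact (hCx.union hCy).compl
  have h1 : (fun ω => hh κ J (ω, x) * hh κ J (ω, y)) = ({ω | ∀ j ∈ J, ω j ∈ C}).indicator (fun _ => (1:ℝ)) := by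
    funext ω
    unfold hh UU
    by_cases h : ∀ j ∈ J, κ (ω j) ≠ κ x
    · rw [Set.indicator_of_mem (show (ω, x) ∈ {z : (ℕ → S) × S | ∀ j ∈ J, κ (z.1 j) ≠ κ z.2} from h), one_mul]
      by_cases h' : ∀ j ∈ J, κ (ω j) ≠ κ y
      · rw [Set.indicator_of_mem (show (ω, y) ∈ {z : (ℕ → S) × S | ∀ j ∈ J, κ (z.1 j) ≠ κ z.2} from h'),
          Set.indicator_of_mem]
        exact fun j hj => ⟨h j hj, h' j hj⟩
      · rw [Set.indicator_of_notMem (show (ω, y) ∉ {z : (ℕ → S) × S | ∀ j ∈ J, κ (z.1 j) ≠ κ z.2} from h'),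
          Set.indicator_of_notMem]
        exact fun h2 => h' fun j hj => (h2 j hj).2
    · rw [Set.indicator_of_notMem (show (ω, x) ∉ {z : (ℕ → S) × S | ∀ j ∈ J, κ (z.1 j) ≠ κ z.2} from h), zero_mul,
        Set.indicator_of_notMem]
      exact fun h2 => h fun j hj => (h2 j hj).1
  have hm : MeasurableSet {ω : ℕ → S | ∀ j ∈ J, ω j ∈ C} := by
    have : {ω : ℕ → S | ∀ j ∈ J, ω j ∈ C} = ⋂ j ∈ J, (fun ω => ω j) ⁻¹' C := by
      ext ω
      simp
    rw [this]
    exact Finset.measurableSet_biInter _ fun j _ => (measurable_pi_apply j) hC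
  rw [h1, integral_indicator hm, setIntegral_const, smul_eq_mul, mul_one, prob_pi μ J hC]
  have h2 : μ.real C = 1 - 2 * v := by
    rw [hCe, measureReal_compl (hCx.union hCy), measureReal_union _ hCy, hx, hy]
    · simp
      ring
    · rw [Set.disjoint_left]
      intro z hz hz'
      exact hxy (hz.symm.trans hz')
  rw [← pow_mul, mul_comm, pow_mul]
  have h3 : 0 ≤ μ.real C := measureReal_nonneg
  refine pow_le_pow_left₀ h3 ?_ _
  rw [h2]
  nlinarith [sq_nonneg v]

end Pool.Agent.R331.RS
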